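import Pool.Agent.Helper70.SK.Stmts
import Pool.Agent.Helper70.SK.Lib

/-! Sticky Kakeya sets: module G1B (increment of the information of the pair, lower bound). -/

namespace Pool.Agent.Helper70.SK

open Finset Pool.Agent.Helper70.DK

theorem g1b_flat (B e : ℕ) (hB : 2 ≤ B) (y : ℤ) : |(B : ℤ) ^ e * (y / (B : ℤ) ^ e) - y| ≤ (B : ℤ) ^ e := by
  have hB0 : (0 : ℤ) < (B : ℤ) := by exact_mod_cast (by omega : 0 < B)
  have hp : (0 : ℤ) < (B : ℤ) ^ e := by positivity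
  have h1 := Int.emod_nonneg y hp.ne'
  have h2 := Int.emod_lt_of_pos y hp
  have h3 := Int.mul_ediv_add_emod y ((B : ℤ) ^ e)
  rw [abs_le]
  constructor <;> linarith

theorem g1b_err (hG : ST_GEO) {m q B : ℕ} {R κ D C : ℝ} {σ : Sy m q} (hB : 2 ≤ B) (hR : 0 ≤ R) (hD : 0 ≤ D)
    (hσ : σ.Ok B R κ D C) {Q K i g : ℕ} {rep : ℕ → ℕ} (hrep : σ.Rep B Q rep) (hiK : i + g ≤ K)
    (hK : K ≤ σ.n) (hQ : Q ≤ σ.n) (hM : (m : ℝ) * (R + 1 + D) * (B : ℝ) ^ g ≤ (B : ℝ) ^ Q)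
    {γ : ℕ} (hγ : γ ∈ σ.G) {x : Fin m → ℤ} (hx : x ∈ σ.X B) (r : Fin q) :
    |(B : ℤ) ^ σ.e K * (σ.Y B γ x r / (B : ℤ) ^ σ.e K) - σ.yc B i (rep γ) x r - σ.Y B γ (σ.co B i x) r| ≤
      2 * (B : ℤ) ^ σ.e (i + g) := by
  obtain ⟨-, h2, h3, -⟩ := hG m q B R κ D C σ hB hR hD hσ
  have hi : i ≤ σ.n := by omega
  obtain ⟨hco, htr, -, -⟩ := h3 i hi x hx
  have hmain := h2 Q rep hQ hrep γ hγ i hi x hx (σ.co B i x) hco htr.symm r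
  have hB0 : (0 : ℤ) < (B : ℤ) := by exact_mod_cast (by omega : 0 < B)
  have hBR : (0 : ℝ) < (B : ℝ) := by exact_mod_cast (by omega : 0 < B)
  have hB1 : (1 : ℤ) ≤ (B : ℤ) := by omega
  have hflat := g1b_flat B (σ.e K) hB (σ.Y B γ x r)
  have hee : σ.e i = σ.e (i + g) + g := by
    unfold Sy.e; omega
  have heK : σ.e K ≤ σ.e (i + g) := by
    unfold Sy.e; omega
  have hpw : (B : ℤ) ^ σ.e K ≤ (B : ℤ) ^ σ.e (i + g) := pow_le_pow_right₀ hB1 heK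
  have hb : (m : ℝ) * (R + 1 + D) * (B : ℝ) ^ σ.e i / (B : ℝ) ^ Q ≤ (B : ℝ) ^ σ.e (i + g) := by
    rw [div_le_iff₀ (by positivity), hee, pow_add]
    calc (m : ℝ) * (R + 1 + D) * ((B : ℝ) ^ σ.e (i + g) * (B : ℝ) ^ g)
        = (B : ℝ) ^ σ.e (i + g) * ((m : ℝ) * (R + 1 + D) * (B : ℝ) ^ g) := by ring
      _ ≤ (B : ℝ) ^ σ.e (i + g) * (B : ℝ) ^ Q := mul_le_mul_of_nonneg_left hM (by positivity)
  have hmain2 := hmain.trans hb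
  have hmain3 : |(σ.Y B γ x r - σ.Y B γ (σ.co B i x) r) -
      (σ.Y B (rep γ) x r - σ.Y B (rep γ) (σ.co B i x) r)| ≤ (B : ℤ) ^ σ.e (i + g) := by
    exact_mod_cast hmain2
  rw [abs_le] at hflat hmain3 ⊢
  unfold Sy.yc
  constructor <;> linarith [hflat.1, hflat.2, hmain3.1, hmain3.2]

/-- `H(C^♭_l | x_{<k}, γ, u)` on the base space -/
noncomputable def g1b_f {m q : ℕ} (σ : Sy m q) (B k K l : ℕ) : ℝ :=
  cent (σ.Om B) (fun ω => σ.Cf B K l ω.1 ω.2) (fun ω => (σ.tr B k ω.1.2, ω.1.1, ω.2))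

/-- `H(x_{<i} | C^♭_l, x_{<k}, γ, u)` on the base space -/
noncomputable def g1b_a {m q : ℕ} (σ : Sy m q) (B k K i l : ℕ) : ℝ :=
  cent (σ.Om B) (fun ω => σ.tr B i ω.1.2) (fun ω => (σ.Cf B K l ω.1 ω.2, σ.tr B k ω.1.2, ω.1.1, ω.2))

/-- the flat cells of the two points agree -/
theorem g1b_cf (hP : ST_PARA) {m q : ℕ} (σ : Sy m q) (B k K l : ℕ) {ω : PS m q} (hω : ω ∈ σ.Pa B) :
    σ.Cf B K l (ω.1.1.1, σ.x1 B k K ω) ω.2 = σ.Cf B K l ω.1.1 ω.2 ∧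
      σ.tr B k (σ.x1 B k K ω) = σ.tr B k ω.1.1.2 := by
  have h := ((hP m q B k K σ).1 ω hω).2
  unfold Sy.ff at h
  simp only [Prod.mk.injEq] at h
  obtain ⟨-, h2, h3⟩ := h
  refine ⟨?_, h2⟩
  unfold Sy.Cf
  have h4 : ∀ r, σ.Y B ω.1.1.1 (σ.x1 B k K ω) r / (B : ℤ) ^ σ.e K = σ.Y B ω.1.1.1 ω.1.1.2 r / (B : ℤ) ^ σ.e K :=
    fun r => congrFun h3 r
  simp only [h4]

theorem g1b_pair (hP : ST_PARA) {m q : ℕ} (σ : Sy m q) (B k K i l : ℕ) :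
    cent (σ.Pa B) (fun ω => (σ.tr B i ω.1.1.2, σ.tr B i (σ.x1 B k K ω), σ.Cf B K l ω.1.1 ω.2))
      (fun ω => (σ.tr B k ω.1.1.2, ω.1.1.1, ω.2)) =
    g1b_f σ B k K l + 2 * g1b_a σ B k K i l - σ.Jj B k K i l := by
  obtain ⟨-, p2, p3, -, -⟩ := hP m q B k K σ
  -- chain rule
  have h1 : cent (σ.Pa B) (fun ω => (σ.tr B i ω.1.1.2, σ.tr B i (σ.x1 B k K ω), σ.Cf B K l ω.1.1 ω.2))
      (fun ω => (σ.tr B k ω.1.1.2, ω.1.1.1, ω.2)) =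
      cent (σ.Pa B) (fun ω => ((σ.Cf B K l ω.1.1 ω.2, σ.tr B i (σ.x1 B k K ω)), σ.tr B i ω.1.1.2))
        (fun ω => (σ.tr B k ω.1.1.2, ω.1.1.1, ω.2)) := by
    refine cent_congr_left _ _ _ _ ?_
    intro x _ y _ _
    simp only [Prod.ext_iff]
    tauto
  have h2 := cent_chain (σ.Pa B) (fun ω => (σ.Cf B K l ω.1.1 ω.2, σ.tr B i (σ.x1 B k K ω)))
    (fun ω => σ.tr B i ω.1.1.2) (fun ω => (σ.tr B k ω.1.1.2, ω.1.1.1, ω.2))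
  have h3 := cent_chain (σ.Pa B) (fun ω => σ.Cf B K l ω.1.1 ω.2) (fun ω => σ.tr B i (σ.x1 B k K ω))
    (fun ω => (σ.tr B k ω.1.1.2, ω.1.1.1, ω.2))
  have h4 : cent (σ.Pa B) (fun ω => σ.tr B i ω.1.1.2)
      (fun ω => ((σ.Cf B K l ω.1.1 ω.2, σ.tr B i (σ.x1 B k K ω)), σ.tr B k ω.1.1.2, ω.1.1.1, ω.2)) =
      cent (σ.Pa B) (fun ω => σ.tr B i ω.1.1.2)
      (fun ω => (σ.tr B i (σ.x1 B k K ω), σ.Cf B K l ω.1.1 ω.2, σ.tr B k ω.1.1.2, ω.1.1.1, ω.2)) := by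
    refine cent_congr_right _ _ _ _ ?_
    intro x _ y _
    simp only [Prod.ext_iff]
    tauto
  -- transfers to the base space
  have t1 : cent (σ.Pa B) (fun ω => σ.Cf B K l ω.1.1 ω.2) (fun ω => (σ.tr B k ω.1.1.2, ω.1.1.1, ω.2)) =
      g1b_f σ B k K l := by
    have e1 := p2 _ (fun ω : BS m q => (σ.Cf B K l ω.1 ω.2, σ.tr B k ω.1.2, ω.1.1, ω.2))
    have e2 := p2 _ (fun ω : BS m q => (σ.tr B k ω.1.2, ω.1.1, ω.2))
    unfold g1b_f cent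
    rw [← e1, ← e2]
  have t2 : cent (σ.Pa B) (fun ω => σ.tr B i ω.1.1.2)
      (fun ω => (σ.Cf B K l ω.1.1 ω.2, σ.tr B k ω.1.1.2, ω.1.1.1, ω.2)) = g1b_a σ B k K i l := by
    have e1 := p2 _ (fun ω : BS m q => (σ.tr B i ω.1.2, σ.Cf B K l ω.1 ω.2, σ.tr B k ω.1.2, ω.1.1, ω.2))
    have e2 := p2 _ (fun ω : BS m q => (σ.Cf B K l ω.1 ω.2, σ.tr B k ω.1.2, ω.1.1, ω.2))
    unfold g1b_a cent
    rw [← e1, ← e2]
  have t3 : cent (σ.Pa B) (fun ω => σ.tr B i (σ.x1 B k K ω))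
      (fun ω => (σ.Cf B K l ω.1.1 ω.2, σ.tr B k ω.1.1.2, ω.1.1.1, ω.2)) = g1b_a σ B k K i l := by
    have e1 := p3 _ (fun ω : BS m q => (σ.tr B i ω.1.2, σ.Cf B K l ω.1 ω.2, σ.tr B k ω.1.2, ω.1.1, ω.2))
    have e2 := p3 _ (fun ω : BS m q => (σ.Cf B K l ω.1 ω.2, σ.tr B k ω.1.2, ω.1.1, ω.2))
    have c1 : ent (σ.Pa B) (fun ω => (σ.tr B i (σ.x1 B k K ω), σ.Cf B K l ω.1.1 ω.2, σ.tr B k ω.1.1.2, ω.1.1.1, ω.2)) =
        ent (σ.Pa B) (fun ω => (σ.tr B i (σ.x1 B k K ω), σ.Cf B K l (ω.1.1.1, σ.x1 B k K ω) ω.2,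
          σ.tr B k (σ.x1 B k K ω), ω.1.1.1, ω.2)) := by
      refine ent_congr _ _ _ ?_
      intro x hx y hy
      rw [(g1b_cf hP σ B k K l hx).1, (g1b_cf hP σ B k K l hx).2, (g1b_cf hP σ B k K l hy).1,
        (g1b_cf hP σ B k K l hy).2]
    have c2 : ent (σ.Pa B) (fun ω => (σ.Cf B K l ω.1.1 ω.2, σ.tr B k ω.1.1.2, ω.1.1.1, ω.2)) =
        ent (σ.Pa B) (fun ω => (σ.Cf B K l (ω.1.1.1, σ.x1 B k K ω) ω.2,
          σ.tr B k (σ.x1 B k K ω), ω.1.1.1, ω.2)) := by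
      refine ent_congr _ _ _ ?_
      intro x hx y hy
      rw [(g1b_cf hP σ B k K l hx).1, (g1b_cf hP σ B k K l hx).2, (g1b_cf hP σ B k K l hy).1,
        (g1b_cf hP σ B k K l hy).2]
    unfold g1b_a
    unfold cent
    rw [c1, c2]
    rw [← e1, ← e2]
  rw [h1, h2, h3, h4, t1]
  have hJ : σ.Jj B k K i l = g1b_a σ B k K i l - cent (σ.Pa B) (fun ω => σ.tr B i ω.1.1.2)
      (fun ω => (σ.tr B i (σ.x1 B k K ω), σ.Cf B K l ω.1.1 ω.2, σ.tr B k ω.1.1.2, ω.1.1.1, ω.2)) := by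
    unfold Sy.Jj
    rw [t2]
  have t3' : cent (σ.Pa B) (fun ω => σ.tr B i (σ.x1 B k K ω))
      (fun ω => (σ.Cf B K l ω.1.1 ω.2, (σ.tr B k ω.1.1.2, ω.1.1.1, ω.2))) = g1b_a σ B k K i l := t3
  rw [hJ]
  linarith

/-- the pair of a level, its relative cell against the flat cell -/
theorem g1b_level (hD0 : ST_DET) (hI : ST_IND) (hG : ST_GEO) (hP : ST_PARA) {m q B : ℕ} {R κ D C : ℝ} {σ : Sy m q}
    (hB : 2 ≤ B) (hR : 0 ≤ R) (hD : 0 ≤ D)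
    (hσ : σ.Ok B R κ D C) {Q K k i g : ℕ} {rep : ℕ → ℕ} (hrep : σ.Rep B Q rep) (hiK : i + g ≤ K)
    (hK : K ≤ σ.n) (hQ : Q ≤ σ.n) (hM : (m : ℝ) * (R + 1 + D) * (B : ℝ) ^ g ≤ (B : ℝ) ^ Q) :
    |cent (σ.Pa B) (fun ω => (σ.tr B i ω.1.1.2, σ.tr B i (σ.x1 B k K ω),
        cl B (σ.e (i + g)) (σ.yc B i (rep ω.1.1.1) ω.1.1.2))) (fun ω => (ω.1.1.1, σ.tr B k ω.1.1.2)) -
      (g1b_f σ B k K (i + g) + 2 * g1b_a σ B k K i (i + g) - σ.Jj B k K i (i + g))| ≤ q * Real.log 7 := by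
  have hB0 : (0 : ℤ) < (B : ℤ) := by exact_mod_cast (by omega : 0 < B)
  have hs : (0 : ℤ) < (B : ℤ) ^ σ.e (i + g) := by positivity
  -- the shifts
  have hU : (σ.U B).Nonempty := by
    refine ⟨fun _ => 0, ?_⟩
    unfold Sy.U gr
    rw [Fintype.mem_piFinset]
    intro _
    rw [Finset.mem_Ico]
    refine ⟨le_refl _, ?_⟩
    exact_mod_cast Nat.pow_pos (by omega : 0 < B)
  have hind := (hI.1 ((ℕ × (Fin m → ℤ)) × ℕ) (Fin q → ℤ) _ _ (σ.GX B ×ˢ Finset.range (σ.N0 B)) (σ.U B)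
    (fun w => (σ.tr B i w.1.2, σ.tr B i (σ.pa B k K w.1 w.2).2,
      cl B (σ.e (i + g)) (σ.yc B i (rep w.1.1) w.1.2))) (fun w => (w.1.1, σ.tr B k w.1.2)) hU)
  have hA : cent (σ.Pa B) (fun ω => (σ.tr B i ω.1.1.2, σ.tr B i (σ.x1 B k K ω),
        cl B (σ.e (i + g)) (σ.yc B i (rep ω.1.1.1) ω.1.1.2))) (fun ω => (ω.1.1.1, σ.tr B k ω.1.1.2)) =
      cent (σ.Pa B) (fun ω => (σ.tr B i ω.1.1.2, σ.tr B i (σ.x1 B k K ω),
        cl B (σ.e (i + g)) (σ.yc B i (rep ω.1.1.1) ω.1.1.2))) (fun ω => (σ.tr B k ω.1.1.2, ω.1.1.1, ω.2)) := by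
    have e1 := hind.1
    have e2 := hind.2
    have e3 : cent (σ.Pa B) (fun ω => (σ.tr B i ω.1.1.2, σ.tr B i (σ.x1 B k K ω),
        cl B (σ.e (i + g)) (σ.yc B i (rep ω.1.1.1) ω.1.1.2))) (fun ω => (σ.tr B k ω.1.1.2, ω.1.1.1, ω.2)) =
        cent (σ.Pa B) (fun ω => (σ.tr B i ω.1.1.2, σ.tr B i (σ.x1 B k K ω),
        cl B (σ.e (i + g)) (σ.yc B i (rep ω.1.1.1) ω.1.1.2)))
          (fun ω => ((ω.1.1.1, σ.tr B k ω.1.1.2), ω.2)) := by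
      refine cent_congr_right _ _ _ _ ?_
      intro x _ y _
      simp only [Prod.ext_iff]
      tauto
    rw [e3]
    exact e1.trans e2.symm
  rw [hA, ← g1b_pair hP σ B k K i (i + g)]
  have hPa : ∀ ω ∈ σ.Pa B, ω.1.1.1 ∈ σ.G ∧ ω.1.1.2 ∈ σ.X B := by
    intro ω hω
    unfold Sy.Pa Sy.GX at hω
    simp only [Finset.mem_product] at hω
    exact hω.1.1
  -- from the relative cell to the flat cell
  have d1 := hD0.1 (PS m q) ((Fin m → ℤ) × ℕ × (Fin q → ℤ)) q 2 (σ.Pa B)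
    (fun ω r => (B : ℤ) ^ σ.e K * (σ.Y B ω.1.1.1 ω.1.1.2 r / (B : ℤ) ^ σ.e K) + ω.2 r)
    (fun ω => σ.yc B i (rep ω.1.1.1) ω.1.1.2)
    (fun ω => (σ.tr B i ω.1.1.2, ω.1.1.1, ω.2))
    (fun ζ r => σ.Y B ζ.2.1 (fun c => (B : ℤ) ^ (σ.n - i) * ζ.1 c) r + ζ.2.2 r)
    ((B : ℤ) ^ σ.e (i + g)) hs (by
      intro ω hω r
      have h := g1b_err hG hB hR hD hσ hrep hiK hK hQ hM (hPa ω hω).1 (hPa ω hω).2 r
      have e : (B : ℤ) ^ σ.e K * (σ.Y B ω.1.1.1 ω.1.1.2 r / (B : ℤ) ^ σ.e K) + ω.2 r -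
          σ.yc B i (rep ω.1.1.1) ω.1.1.2 r -
          (σ.Y B ω.1.1.1 (fun c => (B : ℤ) ^ (σ.n - i) * σ.tr B i ω.1.1.2 c) r + ω.2 r) =
          (B : ℤ) ^ σ.e K * (σ.Y B ω.1.1.1 ω.1.1.2 r / (B : ℤ) ^ σ.e K) -
          σ.yc B i (rep ω.1.1.1) ω.1.1.2 r - σ.Y B ω.1.1.1 (σ.co B i ω.1.1.2) r := by
        unfold Sy.co
        ring
      show |(B : ℤ) ^ σ.e K * (σ.Y B ω.1.1.1 ω.1.1.2 r / (B : ℤ) ^ σ.e K) + ω.2 r -
          σ.yc B i (rep ω.1.1.1) ω.1.1.2 r -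
          (σ.Y B ω.1.1.1 (fun c => (B : ℤ) ^ (σ.n - i) * σ.tr B i ω.1.1.2 c) r + ω.2 r)| ≤ _
      rw [e]
      exact_mod_cast h)
  have d2 := hD0.1 (PS m q) ((Fin m → ℤ) × ℕ × (Fin q → ℤ)) q 2 (σ.Pa B)
    (fun ω => σ.yc B i (rep ω.1.1.1) ω.1.1.2)
    (fun ω r => (B : ℤ) ^ σ.e K * (σ.Y B ω.1.1.1 ω.1.1.2 r / (B : ℤ) ^ σ.e K) + ω.2 r)
    (fun ω => (σ.tr B i ω.1.1.2, ω.1.1.1, ω.2))
    (fun ζ r => -(σ.Y B ζ.2.1 (fun c => (B : ℤ) ^ (σ.n - i) * ζ.1 c) r + ζ.2.2 r))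
    ((B : ℤ) ^ σ.e (i + g)) hs (by
      intro ω hω r
      have h := g1b_err hG hB hR hD hσ hrep hiK hK hQ hM (hPa ω hω).1 (hPa ω hω).2 r
      rw [← abs_neg] at h
      have e : σ.yc B i (rep ω.1.1.1) ω.1.1.2 r -
          ((B : ℤ) ^ σ.e K * (σ.Y B ω.1.1.1 ω.1.1.2 r / (B : ℤ) ^ σ.e K) + ω.2 r) -
          -(σ.Y B ω.1.1.1 (fun c => (B : ℤ) ^ (σ.n - i) * σ.tr B i ω.1.1.2 c) r + ω.2 r) =
          -((B : ℤ) ^ σ.e K * (σ.Y B ω.1.1.1 ω.1.1.2 r / (B : ℤ) ^ σ.e K) -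
          σ.yc B i (rep ω.1.1.1) ω.1.1.2 r - σ.Y B ω.1.1.1 (σ.co B i ω.1.1.2) r) := by
        unfold Sy.co
        ring
      show |σ.yc B i (rep ω.1.1.1) ω.1.1.2 r -
          ((B : ℤ) ^ σ.e K * (σ.Y B ω.1.1.1 ω.1.1.2 r / (B : ℤ) ^ σ.e K) + ω.2 r) -
          -(σ.Y B ω.1.1.1 (fun c => (B : ℤ) ^ (σ.n - i) * σ.tr B i ω.1.1.2 c) r + ω.2 r)| ≤ _
      rw [e]
      exact_mod_cast h)
  have h7 : Real.log (2 * ((2 : ℕ) : ℝ) + 3) = Real.log 7 := by norm_num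
  rw [h7] at d1 d2
  -- comparison
  have u1 := cent_change_left (σ.Pa B) (fun ω => (σ.tr B i ω.1.1.2, σ.tr B i (σ.x1 B k K ω), σ.Cf B K (i + g) ω.1.1 ω.2))
    (fun ω => (σ.tr B i ω.1.1.2, σ.tr B i (σ.x1 B k K ω),
        cl B (σ.e (i + g)) (σ.yc B i (rep ω.1.1.1) ω.1.1.2))) (fun ω => (σ.tr B k ω.1.1.2, ω.1.1.1, ω.2))
  have u2 := cent_change_left (σ.Pa B) (fun ω => (σ.tr B i ω.1.1.2, σ.tr B i (σ.x1 B k K ω),
        cl B (σ.e (i + g)) (σ.yc B i (rep ω.1.1.1) ω.1.1.2)))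
    (fun ω => (σ.tr B i ω.1.1.2, σ.tr B i (σ.x1 B k K ω), σ.Cf B K (i + g) ω.1.1 ω.2))
    (fun ω => (σ.tr B k ω.1.1.2, ω.1.1.1, ω.2))
  have v1 : cent (σ.Pa B) (fun ω => (σ.tr B i ω.1.1.2, σ.tr B i (σ.x1 B k K ω), σ.Cf B K (i + g) ω.1.1 ω.2))
      (fun ω => ((σ.tr B i ω.1.1.2, σ.tr B i (σ.x1 B k K ω),
        cl B (σ.e (i + g)) (σ.yc B i (rep ω.1.1.1) ω.1.1.2)), σ.tr B k ω.1.1.2, ω.1.1.1, ω.2)) ≤ q * Real.log 7 := by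
    refine le_trans ?_ d1
    refine le_trans (cent_mono_left _ _ (fun ω => σ.Cf B K (i + g) ω.1.1 ω.2) _ ?_) ?_
    · intro x _ y _ e e'
      simp only [Prod.ext_iff] at e' ⊢
      exact ⟨e'.1.1, e'.1.2.1, e⟩
    · refine le_trans (cent_mono_right _ _
        (fun ω => ((fun r => σ.yc B i (rep ω.1.1.1) ω.1.1.2 r / (B : ℤ) ^ σ.e (i + g)),
          σ.tr B i ω.1.1.2, ω.1.1.1, ω.2)) _ ?_) ?_
      · intro x _ y _ e
        simp only [Prod.ext_iff] at e ⊢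
        exact ⟨e.1.2.2, e.1.1, e.2.2.1, e.2.2.2⟩
      · exact le_refl _
  have v2 : cent (σ.Pa B) (fun ω => (σ.tr B i ω.1.1.2, σ.tr B i (σ.x1 B k K ω),
        cl B (σ.e (i + g)) (σ.yc B i (rep ω.1.1.1) ω.1.1.2)))
      (fun ω => ((σ.tr B i ω.1.1.2, σ.tr B i (σ.x1 B k K ω), σ.Cf B K (i + g) ω.1.1 ω.2),
        σ.tr B k ω.1.1.2, ω.1.1.1, ω.2)) ≤ q * Real.log 7 := by
    refine le_trans ?_ d2
    refine le_trans (cent_mono_left _ _ (fun ω => cl B (σ.e (i + g)) (σ.yc B i (rep ω.1.1.1) ω.1.1.2)) _ ?_) ?_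
    · intro x _ y _ e e'
      simp only [Prod.ext_iff] at e' ⊢
      exact ⟨e'.1.1, e'.1.2.1, e⟩
    · refine le_trans (cent_mono_right _ _
        (fun ω => ((fun r => ((B : ℤ) ^ σ.e K * (σ.Y B ω.1.1.1 ω.1.1.2 r / (B : ℤ) ^ σ.e K) + ω.2 r) /
          (B : ℤ) ^ σ.e (i + g)), σ.tr B i ω.1.1.2, ω.1.1.1, ω.2)) _ ?_) ?_
      · intro x _ y _ e
        simp only [Prod.ext_iff] at e ⊢
        exact ⟨e.1.2.2, e.1.1, e.2.2.1, e.2.2.2⟩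
      · exact le_refl _
  rw [abs_le]
  constructor <;> linarith

/-- flat cells against cells, on the base space -/
theorem g1b_flatC (hD0 : ST_DET) {m q B : ℕ} (σ : Sy m q) (hB : 2 ≤ B) {K k l : ℕ} (hl : l ≤ K) :
    |g1b_f σ B k K l - σ.hh B k l| ≤ q * Real.log 5 ∧
    ∀ i, |g1b_a σ B k K i l - cent (σ.Om B) (fun ω => σ.tr B i ω.1.2)
      (fun ω => (σ.C B l ω, σ.tr B k ω.1.2, ω.1.1, ω.2))| ≤ q * Real.log 5 := by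
  have hB0 : (0 : ℤ) < (B : ℤ) := by exact_mod_cast (by omega : 0 < B)
  have hB1 : (1 : ℤ) ≤ (B : ℤ) := by omega
  have hs : (0 : ℤ) < (B : ℤ) ^ σ.e l := by positivity
  have heK : σ.e K ≤ σ.e l := by
    unfold Sy.e; omega
  have hpw : (B : ℤ) ^ σ.e K ≤ (B : ℤ) ^ σ.e l := pow_le_pow_right₀ hB1 heK
  have h5 : Real.log (2 * ((1 : ℕ) : ℝ) + 3) = Real.log 5 := by norm_num
  have d1 : cent (σ.Om B) (fun ω => σ.Cf B K l ω.1 ω.2)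
      (fun ω => (σ.C B l ω, σ.tr B k ω.1.2, ω.1.1, ω.2)) ≤ q * Real.log 5 := by
    have d := hD0.1 (BS m q) ((Fin m → ℤ) × ℕ × (Fin q → ℤ)) q 1 (σ.Om B)
      (fun ω r => (B : ℤ) ^ σ.e K * (σ.Y B ω.1.1 ω.1.2 r / (B : ℤ) ^ σ.e K) + ω.2 r)
      (fun ω => σ.Y B ω.1.1 ω.1.2 + ω.2)
      (fun ω => (σ.tr B k ω.1.2, ω.1.1, ω.2)) (fun _ _ => 0)
      ((B : ℤ) ^ σ.e l) hs (by
        intro ω _ r
        have h := g1b_flat B (σ.e K) hB (σ.Y B ω.1.1 ω.1.2 r)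
        have e : (B : ℤ) ^ σ.e K * (σ.Y B ω.1.1 ω.1.2 r / (B : ℤ) ^ σ.e K) + ω.2 r -
            (σ.Y B ω.1.1 ω.1.2 + ω.2) r - 0 =
            (B : ℤ) ^ σ.e K * (σ.Y B ω.1.1 ω.1.2 r / (B : ℤ) ^ σ.e K) - σ.Y B ω.1.1 ω.1.2 r := by
          simp only [Pi.add_apply]
          ring
        show |(B : ℤ) ^ σ.e K * (σ.Y B ω.1.1 ω.1.2 r / (B : ℤ) ^ σ.e K) + ω.2 r -
            (σ.Y B ω.1.1 ω.1.2 + ω.2) r - 0| ≤ _
        rw [e]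
        push_cast
        linarith)
    rw [h5] at d
    exact d
  have d2 : cent (σ.Om B) (σ.C B l)
      (fun ω => (σ.Cf B K l ω.1 ω.2, σ.tr B k ω.1.2, ω.1.1, ω.2)) ≤ q * Real.log 5 := by
    have d := hD0.1 (BS m q) ((Fin m → ℤ) × ℕ × (Fin q → ℤ)) q 1 (σ.Om B)
      (fun ω => σ.Y B ω.1.1 ω.1.2 + ω.2)
      (fun ω r => (B : ℤ) ^ σ.e K * (σ.Y B ω.1.1 ω.1.2 r / (B : ℤ) ^ σ.e K) + ω.2 r)
      (fun ω => (σ.tr B k ω.1.2, ω.1.1, ω.2)) (fun _ _ => 0)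
      ((B : ℤ) ^ σ.e l) hs (by
        intro ω _ r
        have h := g1b_flat B (σ.e K) hB (σ.Y B ω.1.1 ω.1.2 r)
        rw [← abs_neg] at h
        have e : (σ.Y B ω.1.1 ω.1.2 + ω.2) r -
            ((B : ℤ) ^ σ.e K * (σ.Y B ω.1.1 ω.1.2 r / (B : ℤ) ^ σ.e K) + ω.2 r) - 0 =
            -((B : ℤ) ^ σ.e K * (σ.Y B ω.1.1 ω.1.2 r / (B : ℤ) ^ σ.e K) - σ.Y B ω.1.1 ω.1.2 r) := by
          simp only [Pi.add_apply]
          ring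
        show |(σ.Y B ω.1.1 ω.1.2 + ω.2) r -
            ((B : ℤ) ^ σ.e K * (σ.Y B ω.1.1 ω.1.2 r / (B : ℤ) ^ σ.e K) + ω.2 r) - 0| ≤ _
        rw [e]
        push_cast
        linarith)
    rw [h5] at d
    exact d
  constructor
  · have w1 := cent_change_left (σ.Om B) (fun ω => σ.Cf B K l ω.1 ω.2) (σ.C B l)
      (fun ω => (σ.tr B k ω.1.2, ω.1.1, ω.2))
    have w2 := cent_change_left (σ.Om B) (σ.C B l) (fun ω => σ.Cf B K l ω.1 ω.2)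
      (fun ω => (σ.tr B k ω.1.2, ω.1.1, ω.2))
    unfold g1b_f Sy.hh
    rw [abs_le]
    constructor <;> linarith
  · intro i
    have w1 := cent_le_add (σ.Om B) (fun ω => σ.tr B i ω.1.2)
      (fun ω => (σ.Cf B K l ω.1 ω.2, σ.tr B k ω.1.2, ω.1.1, ω.2)) (σ.C B l)
    have w2 := cent_le_add (σ.Om B) (fun ω => σ.tr B i ω.1.2)
      (fun ω => (σ.C B l ω, σ.tr B k ω.1.2, ω.1.1, ω.2)) (fun ω => σ.Cf B K l ω.1 ω.2)
    have w3 := cent_mono_right (σ.Om B) (fun ω => σ.tr B i ω.1.2)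
      (fun ω => (σ.C B l ω, σ.tr B k ω.1.2, ω.1.1, ω.2))
      (fun ω => (σ.C B l ω, σ.Cf B K l ω.1 ω.2, σ.tr B k ω.1.2, ω.1.1, ω.2)) (by
        intro x _ y _ e
        simp only [Prod.ext_iff] at e ⊢
        tauto)
    have w4 := cent_mono_right (σ.Om B) (fun ω => σ.tr B i ω.1.2)
      (fun ω => (σ.Cf B K l ω.1 ω.2, σ.tr B k ω.1.2, ω.1.1, ω.2))
      (fun ω => (σ.Cf B K l ω.1 ω.2, σ.C B l ω, σ.tr B k ω.1.2, ω.1.1, ω.2)) (by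
        intro x _ y _ e
        simp only [Prod.ext_iff] at e ⊢
        tauto)
    unfold g1b_a
    rw [abs_le]
    constructor <;> linarith

/-- the entropies on the base space -/
theorem g1b_base (hG : ST_GEO) {m q B : ℕ} {R κ D C : ℝ} {σ : Sy m q} (hB : 2 ≤ B) (hR : 0 ≤ R) (hD : 0 ≤ D)
    (hσ : σ.Ok B R κ D C) {k j d l0 l1 : ℕ} (hkj : k ≤ j) (hj : j + d ≤ σ.n) :
    cent (σ.Om B) (fun ω => σ.tr B (j + d) ω.1.2) (fun ω => (σ.C B l1 ω, σ.tr B k ω.1.2, ω.1.1, ω.2)) -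
      cent (σ.Om B) (fun ω => σ.tr B j ω.1.2) (fun ω => (σ.C B l0 ω, σ.tr B k ω.1.2, ω.1.1, ω.2)) =
    cent (σ.Om B) (fun ω => σ.tr B (j + d) ω.1.2) (fun ω => (σ.C B l1 ω, σ.tr B j ω.1.2, ω.1.1, ω.2)) +
      (σ.hh B j l1 - σ.hh B j l0) - (σ.hh B k l1 - σ.hh B k l0) := by
  obtain ⟨-, -, -, h4⟩ := hG m q B R κ D C σ hB hR hD hσ
  have hkj' : ∀ x y : Fin m → ℤ, σ.tr B j x = σ.tr B j y → σ.tr B k x = σ.tr B k y := by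
    intro x y e
    rw [h4 k j hkj (by omega) x, h4 k j hkj (by omega) y, e]
  have hjd' : ∀ x y : Fin m → ℤ, σ.tr B (j + d) x = σ.tr B (j + d) y → σ.tr B j x = σ.tr B j y := by
    intro x y e
    rw [h4 j (j + d) (by omega) hj x, h4 j (j + d) (by omega) hj y, e]
  -- T for one level
  have key : ∀ l, cent (σ.Om B) (fun ω => σ.tr B j ω.1.2) (fun ω => (σ.C B l ω, σ.tr B k ω.1.2, ω.1.1, ω.2)) =
      cent (σ.Om B) (fun ω => σ.tr B j ω.1.2) (fun ω => (σ.tr B k ω.1.2, ω.1.1, ω.2)) + σ.hh B j l -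
        σ.hh B k l := by
    intro l
    have c1 := cent_chain (σ.Om B) (σ.C B l) (fun ω => σ.tr B j ω.1.2)
      (fun ω => (σ.tr B k ω.1.2, ω.1.1, ω.2))
    have c2 := cent_chain (σ.Om B) (fun ω => σ.tr B j ω.1.2) (σ.C B l)
      (fun ω => (σ.tr B k ω.1.2, ω.1.1, ω.2))
    have c3 : cent (σ.Om B) (fun ω => (σ.C B l ω, σ.tr B j ω.1.2)) (fun ω => (σ.tr B k ω.1.2, ω.1.1, ω.2)) =
        cent (σ.Om B) (fun ω => (σ.tr B j ω.1.2, σ.C B l ω)) (fun ω => (σ.tr B k ω.1.2, ω.1.1, ω.2)) := by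
      refine cent_congr_left _ _ _ _ ?_
      intro x _ y _ _
      simp only [Prod.ext_iff]
      tauto
    have c4 : cent (σ.Om B) (σ.C B l) (fun ω => (σ.tr B j ω.1.2, σ.tr B k ω.1.2, ω.1.1, ω.2)) = σ.hh B j l := by
      unfold Sy.hh
      refine cent_congr_right _ _ _ _ ?_
      intro x _ y _
      constructor
      · intro e
        simp only [Prod.mk.injEq] at e ⊢
        exact ⟨e.1, e.2.2.1, e.2.2.2⟩
      · intro e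
        simp only [Prod.mk.injEq] at e ⊢
        exact ⟨e.1, hkj' _ _ e.1, e.2.1, e.2.2⟩
    have c5 : σ.hh B k l = cent (σ.Om B) (σ.C B l) (fun ω => (σ.tr B k ω.1.2, ω.1.1, ω.2)) := rfl
    rw [c4] at c2
    rw [c5]
    linarith
  have k1 : cent (σ.Om B) (fun ω => σ.tr B (j + d) ω.1.2) (fun ω => (σ.C B l1 ω, σ.tr B k ω.1.2, ω.1.1, ω.2)) =
      cent (σ.Om B) (fun ω => σ.tr B j ω.1.2) (fun ω => (σ.C B l1 ω, σ.tr B k ω.1.2, ω.1.1, ω.2)) +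
      cent (σ.Om B) (fun ω => σ.tr B (j + d) ω.1.2) (fun ω => (σ.C B l1 ω, σ.tr B j ω.1.2, ω.1.1, ω.2)) := by
    have c1 := cent_chain (σ.Om B) (fun ω => σ.tr B j ω.1.2) (fun ω => σ.tr B (j + d) ω.1.2)
      (fun ω => (σ.C B l1 ω, σ.tr B k ω.1.2, ω.1.1, ω.2))
    have c2 : cent (σ.Om B) (fun ω => σ.tr B (j + d) ω.1.2) (fun ω => (σ.C B l1 ω, σ.tr B k ω.1.2, ω.1.1, ω.2)) =
        cent (σ.Om B) (fun ω => (σ.tr B j ω.1.2, σ.tr B (j + d) ω.1.2))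
          (fun ω => (σ.C B l1 ω, σ.tr B k ω.1.2, ω.1.1, ω.2)) := by
      refine cent_congr_left _ _ _ _ ?_
      intro x _ y _ _
      constructor
      · intro e
        simp only [Prod.mk.injEq] at e
        exact e.2
      · intro e
        simp only [Prod.mk.injEq]
        exact ⟨hjd' _ _ e, e⟩
    have c3 : cent (σ.Om B) (fun ω => σ.tr B (j + d) ω.1.2)
        (fun ω => (σ.tr B j ω.1.2, σ.C B l1 ω, σ.tr B k ω.1.2, ω.1.1, ω.2)) =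
        cent (σ.Om B) (fun ω => σ.tr B (j + d) ω.1.2) (fun ω => (σ.C B l1 ω, σ.tr B j ω.1.2, ω.1.1, ω.2)) := by
      refine cent_congr_right _ _ _ _ ?_
      intro x _ y _
      constructor
      · intro e
        simp only [Prod.mk.injEq] at e ⊢
        exact ⟨e.2.1, e.1, e.2.2.2.1, e.2.2.2.2⟩
      · intro e
        simp only [Prod.mk.injEq] at e ⊢
        exact ⟨e.2.1, e.1, hkj' _ _ e.2.1, e.2.2.1, e.2.2.2⟩
    rw [c2, c1, c3]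
  rw [k1, key l1, key l0]
  ring

theorem st_G1B (hD0 : ST_DET) (hI : ST_IND) (hG : ST_GEO) (hP : ST_PARA) : ST_G1B := by
  intro m q B R κ D hB hR hD
  have hBR : (1 : ℝ) ≤ (B : ℝ) := by exact_mod_cast (by omega : 1 ≤ B)
  have hl5 : (0 : ℝ) ≤ Real.log 5 := Real.log_nonneg (by norm_num)
  have hl7 : (0 : ℝ) ≤ Real.log 7 := Real.log_nonneg (by norm_num)
  set N : ℕ := ⌈(m : ℝ) * (R + 1 + D)⌉₊ with hN
  have hNge : (m : ℝ) * (R + 1 + D) ≤ N := Nat.le_ceil _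
  have hqn : (0 : ℝ) ≤ q := Nat.cast_nonneg q
  refine ⟨N + (6 * (q * Real.log 5) + 2 * (q * Real.log 7)), by positivity, ?_⟩
  intro σ C Q k K g d j rep hσ hrep hkj hjK hKn hQn hQ
  -- the size of Q
  have hQ' : g + d + N ≤ Q := by
    have h0 : (0 : ℝ) ≤ 6 * (q * Real.log 5) + 2 * (q * Real.log 7) := by positivity
    have h1 : ((g + d + N : ℕ) : ℝ) ≤ (Q : ℝ) := by
      push_cast
      linarith
    exact_mod_cast h1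
  have hM : (m : ℝ) * (R + 1 + D) * (B : ℝ) ^ g ≤ (B : ℝ) ^ Q := by
    have h1 : (N : ℝ) ≤ (B : ℝ) ^ N := by
      have h2 : N ≤ B ^ N := (Nat.lt_pow_self (by omega : 1 < B)).le
      exact_mod_cast h2
    calc (m : ℝ) * (R + 1 + D) * (B : ℝ) ^ g ≤ (B : ℝ) ^ N * (B : ℝ) ^ g :=
          mul_le_mul_of_nonneg_right (hNge.trans h1) (by positivity)
      _ = (B : ℝ) ^ (N + g) := by rw [pow_add]
      _ ≤ (B : ℝ) ^ Q := pow_le_pow_right₀ hBR (by omega)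
  have hcomm : j + g + d = j + d + g := by omega
  rw [hcomm]
  have L1 := g1b_level hD0 hI hG hP hB hR hD hσ (k := k) (i := j + d) (g := g) hrep (by omega : j + d + g ≤ K)
    hKn hQn hM
  have L0 := g1b_level hD0 hI hG hP hB hR hD hσ (k := k) (i := j) (g := g) hrep (by omega : j + g ≤ K)
    hKn hQn hM
  obtain ⟨f1, a1⟩ := g1b_flatC hD0 σ hB (K := K) (k := k) (l := j + d + g) (by omega)
  obtain ⟨f0, a0⟩ := g1b_flatC hD0 σ hB (K := K) (k := k) (l := j + g) (by omega)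
  have a1' := a1 (j + d)
  have a0' := a0 j
  have hb := g1b_base hG hB hR hD hσ (k := k) (j := j) (d := d) (l0 := j + g) (l1 := j + d + g) hkj (by omega)
  rw [abs_le] at L1 L0 f1 f0 a1' a0'
  have hN0 : (0 : ℝ) ≤ (N : ℝ) := Nat.cast_nonneg N
  linarith [L1.1, L0.2, f1.1, f0.2, a1'.1, a0'.2]

end Pool.Agent.Helper70.SK
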